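import Pool.Agent.Y467.QB.RedDich

/-!
# Project QB: `S_LINES`
-/

set_option autoImplicit false

namespace Pool.Agent.Y467.QB

open Module Pool.Agent.Y920.QB

section

variable {V K : Type} [AddCommGroup V] [Module (ZMod 2) V] [AddCommGroup K] [Module (ZMod 2) K]
  {U : Submodule (ZMod 2) V}

/-- one step of the comparison of sums -/
theorem sup_step {W : Type} [AddCommGroup W] [Module (ZMod 2) W] [FiniteDimensional (ZMod 2) W]
    {A A' C : Submodule (ZMod 2) W} (h : A' ≤ A) {a : ℕ}
    (ha : finrank (ZMod 2) A ≤ finrank (ZMod 2) A' + a) :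
    finrank (ZMod 2) ↥(A ⊔ C) ≤ finrank (ZMod 2) ↥(A' ⊔ C) + a := by
  have h1 := Submodule.finrank_sup_add_finrank_inf_eq A (A' ⊔ C)
  have h2 : A ⊔ (A' ⊔ C) = A ⊔ C := by
    rw [← sup_assoc, sup_eq_left.mpr h]
  rw [h2] at h1
  have h3 : finrank (ZMod 2) A' ≤ finrank (ZMod 2) ↥(A ⊓ (A' ⊔ C)) :=
    Submodule.finrank_mono (le_inf h le_sup_left)
  omega

theorem sup_two {W : Type} [AddCommGroup W] [Module (ZMod 2) W] [FiniteDimensional (ZMod 2) W]
    {A A' B B' : Submodule (ZMod 2) W} (h : A' ≤ A) (h' : B' ≤ B) {a : ℕ}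
    (ha : finrank (ZMod 2) A ≤ finrank (ZMod 2) A' + a)
    (hb : finrank (ZMod 2) B ≤ finrank (ZMod 2) B' + a) :
    finrank (ZMod 2) ↥(A ⊔ B) ≤ finrank (ZMod 2) ↥(A' ⊔ B') + 2 * a := by
  have h1 := sup_step (C := B) h ha
  have h2 := sup_step (C := A') h' hb
  rw [sup_comm B A', sup_comm B' A'] at h2
  omega

/-- dimension of an intersection -/
theorem inf_ge [Finite V] (β : U →ₗ[ZMod 2] V →ₗ[ZMod 2] K) {ι : Type}
    (s : Finset ι) (F : ι → Submodule (ZMod 2) K) :
    finrank (ZMod 2) U + ∑ i ∈ s, ee β (F i) ≤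
      ee β (s.inf F) + s.card * finrank (ZMod 2) U := by
  classical
  induction s using Finset.induction_on with
  | empty => simp [ee_top]
  | insert a s ha ih =>
    rw [Finset.sum_insert ha, Finset.card_insert_of_notMem ha, Finset.inf_insert]
    have h1 := ee_sup β (F a) (s.inf F)
    have h2 : finrank (ZMod 2) ↥(UE β (F a) ⊔ UE β (s.inf F)) ≤ finrank (ZMod 2) U :=
      Submodule.finrank_le _
    have h3 : (s.card + 1) * finrank (ZMod 2) U =
      s.card * finrank (ZMod 2) U + finrank (ZMod 2) U := by ring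
    rw [h3]
    omega

/-- values in `ZMod 2` -/
theorem z2 (x : ZMod 2) (h : x ≠ 0) : x = 1 := by
  revert h; revert x; decide

/-- nonzero functionals with comparable kernels are equal -/
theorem eq_of_ker_le {k k' : Module.Dual (ZMod 2) K} (hk : k ≠ 0)
    (h : LinearMap.ker k' ≤ LinearMap.ker k) : k = k' := by
  obtain ⟨x, hx⟩ : ∃ x, k x ≠ 0 := by
    by_contra hcon
    push Not at hcon
    exact hk (LinearMap.ext hcon)
  have hx1 := z2 _ hx
  have hx' : k' x ≠ 0 := fun h0 => hx (h h0)
  have hx1' := z2 _ hx'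
  apply LinearMap.ext
  intro y
  by_cases hy : k' y = 0
  · rw [hy]; exact h hy
  · have hy1 := z2 _ hy
    have : k' (y - x) = 0 := by rw [map_sub, hy1, hx1', sub_self]
    have h2 : k (y - x) = 0 := h this
    rw [map_sub, hx1, sub_eq_zero] at h2
    rw [h2, hy1]

theorem add_self_dual (k : Module.Dual (ZMod 2) K) : k + k = 0 := by
  ext x
  rw [LinearMap.add_apply, LinearMap.zero_apply]
  generalize k x = y
  revert y; decide

end

theorem t_LINES : S_LINES := by
  classical
  intro hA hSum hCoat hDich hSpan V K _ _ _ _ _ _ U β t T hL hStd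
  obtain ⟨hsupA, hS⟩ := hA V K U β t
  obtain ⟨hspan, hstar⟩ := hSpan V K U β t T hL hStd
  have hdich := hDich V K U β t T hL hStd
  have hSum' := hSum V K U β T
  obtain ⟨ht, hT, hbig⟩ := hStd
  have hVU : finrank (ZMod 2) U ≤ finrank (ZMod 2) V := Submodule.finrank_le U
  have h3t : 3 * t * finrank (ZMod 2) K =
      t * finrank (ZMod 2) K + t * finrank (ZMod 2) K + t * finrank (ZMod 2) K := by ring
  rcases Nat.eq_zero_or_pos (finrank (ZMod 2) K) with hr0 | hrpos
  · -- `K = 0`
    have hKs : Subsingleton K := Module.finrank_zero_iff.mp hr0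
    have hU0 : finrank (ZMod 2) U = 0 := by
      have : Subsingleton U := by
        refine ⟨fun a b => ?_⟩
        rw [hL.inj a (fun x => Subsingleton.elim _ _), hL.inj b (fun x => Subsingleton.elim _ _)]
      exact Module.finrank_zero_iff.mpr this
    refine ⟨fun _ => 0, ?_, ?_⟩
    · have : IsEmpty (Fin (finrank (ZMod 2) K)) := by rw [hr0]; infer_instance
      exact linearIndependent_empty_type
    · rw [hU0, hr0]; simp
  obtain ⟨ks, hks0, hksS⟩ := hstar hrpos
  set r := finrank (ZMod 2) K with hr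
  set N := finrank (ZMod 2) U with hN
  -- the ample core of the star functional is zero
  have eks : ee β (LinearMap.ker ks) ≤ t * r := by
    have := (hS (LinearMap.ker ks)).2.2
    rw [hksS, ee_bot hL, zero_add] at this
    exact this
  by_cases hr1 : r = 1
  · -- lines
    obtain ⟨v, hv⟩ := (Module.finrank_pos_iff_exists_ne_zero (R := ZMod 2) (M := K)).mp hrpos
    have hsp : Submodule.span (ZMod 2) {v} = ⊤ :=
      (finrank_eq_one_iff_of_nonzero v hv).mp (hr ▸ hr1)
    refine ⟨fun _ => v, ?_, ?_⟩
    · let _ : Unique (Fin r) := by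
        rw [hr1]; infer_instance
      exact linearIndependent_unique_iff.mpr hv
    · simp only [hsp, ee_top, Finset.sum_const, Finset.card_univ, Fintype.card_fin, smul_eq_mul]
      rw [hr1]
      have : 0 ≤ 2 * t * 1 := Nat.zero_le _
      omega
  have hr2 : 2 ≤ r := by omega
  -- coat functionals
  set CC : Set (Module.Dual (ZMod 2) K) := {κ | κ ≠ 0 ∧ Coat β t (LinearMap.ker κ)} with hCC
  have hSk : ∀ k ∈ CC, SS β t (LinearMap.ker k) = LinearMap.ker k := fun k hk =>
    le_antisymm (hS _).2.1 (le_SS hk.2.1 le_rfl)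
  have hLnot : ∀ k ∈ CC, ¬ SS β t (LinearMap.ker (ks + k)) ≤ LinearMap.ker k := by
    intro k hk h
    refine (hdich k hk.1 hk.2 ks).1 ⟨?_, h⟩
    rw [hksS]; exact bot_le
  have hclaim : ∀ k ∈ CC, ∀ k' ∈ CC, k' ≠ k → SS β t (LinearMap.ker (ks + k)) ≤ LinearMap.ker k' := by
    intro k hk k' hk' hne
    by_contra hcon
    have h1 := (hdich k' hk'.1 hk'.2 (ks + k)).2 hcon
    have h2 : ¬ SS β t (LinearMap.ker k') ≤ LinearMap.ker k := by
      rw [hSk k' hk']
      intro h
      exact hne (eq_of_ker_le hk.1 h).symm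
    have h3 := (hdich k hk.1 hk.2 k').2 h2
    rw [hSk k' hk'] at h3
    set l := ks + k + k' with hl
    have hm : l + ks = k' + k := by
      rw [hl]
      have := add_self_dual ks
      calc ks + k + k' + ks = (ks + ks) + (k' + k) := by abel
        _ = k' + k := by rw [this, zero_add]
    have hJ : SS β t (LinearMap.ker l) ⊔ SS β t (LinearMap.ker (k' + k)) ≤ LinearMap.ker k' :=
      sup_le (h1.trans inf_le_left) (h3.trans inf_le_right)
    have hJT := hT _ (lt_of_le_of_lt hJ (lt_of_le_of_ne le_top hk'.2.2.1))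
    rw [ee_top] at hJT
    have h4 := hSum' (finrank (ZMod 2) V - N + t * r) hL hT (by omega) l ks (by
      have : 0 ≤ ee β (LinearMap.ker l ⊓ LinearMap.ker ks) := Nat.zero_le _
      omega)
    rw [hm] at h4
    have h5 : finrank (ZMod 2) ↥(UE β (LinearMap.ker l) ⊔ UE β (LinearMap.ker (k' + k))) ≤
        finrank (ZMod 2) ↥(UE β (SS β t (LinearMap.ker l)) ⊔ UE β (SS β t (LinearMap.ker (k' + k))))
          + 2 * (t * r) :=
      sup_two (UE_mono β (hS _).2.1) (UE_mono β (hS _).2.1) (hS _).2.2 (hS _).2.2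
    have h6 : finrank (ZMod 2)
        ↥(UE β (SS β t (LinearMap.ker l)) ⊔ UE β (SS β t (LinearMap.ker (k' + k)))) ≤
        ee β (SS β t (LinearMap.ker l) ⊔ SS β t (LinearMap.ker (k' + k))) :=
      Submodule.finrank_mono (sup_le (UE_mono β le_sup_left) (UE_mono β le_sup_right))
    omega
  -- the dual vectors
  have hx : ∀ k : CC, ∃ x : K, x ∈ SS β t (LinearMap.ker (ks + (k : Module.Dual (ZMod 2) K))) ∧
      (k : Module.Dual (ZMod 2) K) x = 1 := by
    rintro ⟨k, hk⟩
    obtain ⟨x, hx, hx'⟩ := SetLike.not_le_iff_exists.mp (hLnot k hk)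
    exact ⟨x, hx, z2 _ hx'⟩
  choose x hxm hx1 using hx
  have hx0 : ∀ k k' : CC, k' ≠ k → (k' : Module.Dual (ZMod 2) K) (x k) = 0 := by
    intro k k' hne
    exact hclaim k k.2 k' k'.2 (fun h => hne (Subtype.ext h)) (hxm k)
  -- linear independence of the coat functionals
  have hfinD : Finite (Module.Dual (ZMod 2) K) :=
    Finite.of_injective (fun f : Module.Dual (ZMod 2) K => (f : K → ZMod 2)) DFunLike.coe_injective
  have hfin : Finite CC := inferInstance
  let _ : Fintype CC := Fintype.ofFinite CC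
  have hli : LinearIndependent (ZMod 2) (fun k : CC => (k : Module.Dual (ZMod 2) K)) := by
    rw [Fintype.linearIndependent_iff]
    intro g hg i
    have h1 := congrArg (fun f : Module.Dual (ZMod 2) K => f (x i)) hg
    simp only [LinearMap.sum_apply, LinearMap.smul_apply, LinearMap.zero_apply, smul_eq_mul] at h1
    rw [Finset.sum_eq_single i] at h1
    · rwa [hx1, mul_one] at h1
    · intro j _ hj
      rw [hx0 i j hj, mul_zero]
    · intro h; exact absurd (Finset.mem_univ i) h
  have hspan' : ⊤ ≤ Submodule.span (ZMod 2) (Set.range (fun k : CC => (k : Module.Dual (ZMod 2) K))) := by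
    rw [Subtype.range_coe_subtype, Set.ofPred_mem_eq]
    exact hspan.ge
  have hcard : Fintype.card CC = r := by
    have h1 := Module.finrank_eq_card_basis (Basis.mk hli hspan')
    rw [← h1, hr]
    exact Subspace.dual_finrank_eq
  let e : Fin r ≃ CC := (Fintype.equivFinOfCardEq hcard).symm
  -- a vector killed by all coat functionals is zero
  have hkill : ∀ y : K, (∀ k : CC, (k : Module.Dual (ZMod 2) K) y = 0) → y = 0 := by
    intro y hy
    rw [← Module.forall_dual_apply_eq_zero_iff (ZMod 2)]
    intro f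
    have hf : f ∈ Submodule.span (ZMod 2) CC := by rw [hspan]; exact Submodule.mem_top
    induction hf using Submodule.span_induction with
    | mem k hk => exact hy ⟨k, hk⟩
    | zero => rfl
    | add a b _ _ ha hb => rw [LinearMap.add_apply, ha, hb, add_zero]
    | smul c a _ ha => rw [LinearMap.smul_apply, ha, smul_zero]
  have hline : ∀ k : CC, SS β t (LinearMap.ker (ks + (k : Module.Dual (ZMod 2) K))) ≤
      Submodule.span (ZMod 2) {x k} := by
    intro k y hy
    rw [Submodule.mem_span_singleton]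
    refine ⟨(k : Module.Dual (ZMod 2) K) y, ?_⟩
    rw [eq_comm, ← sub_eq_zero]
    apply hkill
    intro k'
    rw [map_sub, map_smul, smul_eq_mul]
    by_cases h : k' = k
    · rw [h, hx1, mul_one, sub_self]
    · rw [hx0 k k' h, mul_zero, sub_zero]
      exact hclaim k k.2 k' k'.2 (fun h' => h (Subtype.ext h')) hy
  -- the inequality for one functional
  have hone : ∀ k : CC, N ≤ ee β (Submodule.span (ZMod 2) {x k}) +
      ee β (LinearMap.ker (k : Module.Dual (ZMod 2) K)) +
      (finrank (ZMod 2) V - N + 2 * (t * r) + 1) := by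
    intro k
    have h4 := hSum' (finrank (ZMod 2) V - N + t * r) hL hT (by omega)
      (ks + (k : Module.Dual (ZMod 2) K)) ks (by omega)
    have hm : ks + (k : Module.Dual (ZMod 2) K) + ks = k := by
      have := add_self_dual ks
      calc ks + (k : Module.Dual (ZMod 2) K) + ks = (ks + ks) + k := by abel
        _ = k := by rw [this, zero_add]
    rw [hm] at h4
    have h5 := ee_sup β (LinearMap.ker (ks + (k : Module.Dual (ZMod 2) K)))
      (LinearMap.ker (k : Module.Dual (ZMod 2) K))
    have h6 := (hS (LinearMap.ker (ks + (k : Module.Dual (ZMod 2) K)))).2.2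
    have h7 := ee_mono β (hline k)
    omega
  -- the intersection of the kernels
  have hinf : N + ∑ k : CC, ee β (LinearMap.ker (k : Module.Dual (ZMod 2) K)) ≤ r * N := by
    have h1 := inf_ge β (Finset.univ : Finset CC)
      (fun k => LinearMap.ker (k : Module.Dual (ZMod 2) K))
    have h2 : (Finset.univ : Finset CC).inf (fun k => LinearMap.ker (k : Module.Dual (ZMod 2) K)) = ⊥ := by
      rw [eq_bot_iff]
      intro y hy
      rw [Submodule.mem_bot]
      apply hkill
      intro k
      have h3 := Finset.inf_le (f := fun k : CC => LinearMap.ker (k : Module.Dual (ZMod 2) K))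
        (Finset.mem_univ k)
      exact h3 hy
    rw [h2, ee_bot hL, zero_add, Finset.card_univ, hcard] at h1
    exact h1
  refine ⟨fun i => x (e i), ?_, ?_⟩
  · rw [Fintype.linearIndependent_iff]
    intro g hg i
    have h1 := congrArg (fun y : K => ((e i : CC) : Module.Dual (ZMod 2) K) y) hg
    simp only [map_sum, map_smul, smul_eq_mul, map_zero] at h1
    rw [Finset.sum_eq_single i] at h1
    · rwa [hx1, mul_one] at h1
    · intro j _ hj
      rw [hx0 (e j) (e i) (fun h => hj (e.injective h).symm), mul_zero]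
    · intro h; exact absurd (Finset.mem_univ i) h
  · have h1 : ∑ i, ee β (Submodule.span (ZMod 2) {x (e i)}) =
        ∑ k : CC, ee β (Submodule.span (ZMod 2) {x k}) :=
      Equiv.sum_comp e (fun k => ee β (Submodule.span (ZMod 2) {x k}))
    rw [h1]
    have h2 : ∑ _k : CC, N ≤ ∑ k : CC, (ee β (Submodule.span (ZMod 2) {x k}) +
        ee β (LinearMap.ker (k : Module.Dual (ZMod 2) K)) +
        (finrank (ZMod 2) V - N + 2 * (t * r) + 1)) := Finset.sum_le_sum (fun k _ => hone k)
    rw [Finset.sum_add_distrib, Finset.sum_add_distrib, Finset.sum_const, Finset.sum_const,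
      Finset.card_univ, hcard, smul_eq_mul, smul_eq_mul] at h2
    have h3 : r * (finrank (ZMod 2) V + 2 * t * r + 1) =
        r * N + r * (finrank (ZMod 2) V - N + 2 * (t * r) + 1) := by
      rw [← Nat.mul_add]
      congr 1
      have : 2 * t * r = 2 * (t * r) := by ring
      omega
    rw [h3]
    omega

end Pool.Agent.Y467.QB
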