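import Pool.Agent.Y920.QB.Lin

/-!
# Project QB: basic facts, `S_RED` and `S_DICH`
-/

set_option autoImplicit false

namespace Pool.Agent.Y467.QB

open Module Pool.Agent.Y920.QB

section

variable {V K : Type} [AddCommGroup V] [Module (ZMod 2) V] [AddCommGroup K] [Module (ZMod 2) K]
  {U : Submodule (ZMod 2) V}

theorem UE_mono (β : U →ₗ[ZMod 2] V →ₗ[ZMod 2] K) {E E' : Submodule (ZMod 2) K} (h : E ≤ E') :
    UE β E ≤ UE β E' := fun _ hu x => h (hu x)

theorem UE_inf (β : U →ₗ[ZMod 2] V →ₗ[ZMod 2] K) (E E' : Submodule (ZMod 2) K) :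
    UE β E ⊓ UE β E' = UE β (E ⊓ E') := by
  ext u
  exact ⟨fun h x => ⟨h.1 x, h.2 x⟩, fun h => ⟨fun x => (h x).1, fun x => (h x).2⟩⟩

theorem UE_top (β : U →ₗ[ZMod 2] V →ₗ[ZMod 2] K) : UE β ⊤ = ⊤ := by
  ext u
  exact ⟨fun _ => Submodule.mem_top, fun _ x => Submodule.mem_top⟩

theorem UE_bot {β : U →ₗ[ZMod 2] V →ₗ[ZMod 2] K} (h : Lin β) : UE β ⊥ = ⊥ := by
  ext u
  constructor
  · intro hu
    exact (Submodule.mem_bot _).mpr (h.inj u (fun x => (Submodule.mem_bot _).mp (hu x)))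
  · intro hu
    rw [(Submodule.mem_bot _).mp hu]
    exact Submodule.zero_mem _

theorem ee_top (β : U →ₗ[ZMod 2] V →ₗ[ZMod 2] K) : ee β ⊤ = finrank (ZMod 2) U := by
  unfold ee
  rw [UE_top, finrank_top]

theorem ee_bot {β : U →ₗ[ZMod 2] V →ₗ[ZMod 2] K} (h : Lin β) : ee β ⊥ = 0 := by
  unfold ee
  rw [UE_bot h, finrank_bot]

theorem le_SS {β : U →ₗ[ZMod 2] V →ₗ[ZMod 2] K} {t : ℕ} {A E : Submodule (ZMod 2) K}
    (hA : Amp β t A) (h : A ≤ E) : A ≤ SS β t E := le_sSup ⟨h, hA⟩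

theorem ee_mono [Finite V] (β : U →ₗ[ZMod 2] V →ₗ[ZMod 2] K) {E E' : Submodule (ZMod 2) K}
    (h : E ≤ E') : ee β E ≤ ee β E' :=
  Submodule.finrank_mono (UE_mono β h)

/-- dimension of a sum -/
theorem ee_sup [Finite V] (β : U →ₗ[ZMod 2] V →ₗ[ZMod 2] K) (E E' : Submodule (ZMod 2) K) :
    finrank (ZMod 2) ↥(UE β E ⊔ UE β E') + ee β (E ⊓ E') = ee β E + ee β E' := by
  unfold ee
  rw [← UE_inf]
  exact Submodule.finrank_sup_add_finrank_inf_eq _ _

end

theorem t_RED : S_RED := by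
  intro hA hD V K _ _ _ _ _ _ U β t hL ht κ κ' hsup
  obtain ⟨-, hS⟩ := hA V K U β t
  have hdist := hD V K U β t hL ht
  obtain ⟨u, hu⟩ := (hdist _ (hS (LinearMap.ker (κ + κ'))).1).1
  obtain ⟨u', hu'⟩ := (hdist _ (hS (LinearMap.ker κ')).1).1
  have h1 := (hdist _ (hS (LinearMap.ker κ)).1).2 u u'
  rw [hu, hu', hsup, inf_top_eq] at h1
  have hBκ : SS β t (LinearMap.ker (κ + κ')) ≤ LinearMap.ker κ := by
    refine (le_sup_right.trans h1).trans (sup_le (hS _).2.1 ?_)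
    intro x hx
    have h2 : (κ + κ') x = 0 := (hS (LinearMap.ker (κ + κ'))).2.1 hx.1
    have h3 : κ' x = 0 := (hS (LinearMap.ker κ')).2.1 hx.2
    rw [LinearMap.add_apply, h3, add_zero] at h2
    exact h2
  have hBκ' : SS β t (LinearMap.ker (κ + κ')) ≤ LinearMap.ker κ' := by
    intro x hx
    have h2 : (κ + κ') x = 0 := (hS (LinearMap.ker (κ + κ'))).2.1 hx
    have h3 : κ x = 0 := hBκ hx
    rw [LinearMap.add_apply, h3, zero_add] at h2
    exact h2
  exact le_inf (le_SS (hS _).1 hBκ) (le_SS (hS _).1 hBκ')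

theorem t_DICH : S_DICH := by
  intro hA hR hSum V K _ _ _ _ _ _ U β t T hL hStd κ hκ hC b
  obtain ⟨hsupA, hS⟩ := hA V K U β t
  obtain ⟨ht, hT, hbig⟩ := hStd
  have hVU : finrank (ZMod 2) U ≤ finrank (ZMod 2) V := Submodule.finrank_le U
  set r := finrank (ZMod 2) K with hr
  set N := finrank (ZMod 2) U with hN
  have hCtop : LinearMap.ker κ < ⊤ := lt_of_le_of_ne le_top hC.2.1
  constructor
  · rintro ⟨h1, h2⟩
    have e1 : ee β (LinearMap.ker b) ≤ ee β (LinearMap.ker κ ⊓ LinearMap.ker b) + t * r :=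
      (hS (LinearMap.ker b)).2.2.trans
        (Nat.add_le_add_right (ee_mono β (le_inf h1 (hS (LinearMap.ker b)).2.1)) _)
    have hcomm : b + κ = κ + b := add_comm _ _
    rw [hcomm] at h2
    have e2 : ee β (LinearMap.ker (κ + b)) ≤
        ee β (LinearMap.ker κ ⊓ LinearMap.ker (κ + b)) + t * r :=
      (hS (LinearMap.ker (κ + b))).2.2.trans
        (Nat.add_le_add_right (ee_mono β (le_inf h2 (hS (LinearMap.ker (κ + b))).2.1)) _)
    have e3 := hSum V K U β T (finrank (ZMod 2) V - N + t * r) hL hT (by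
      have : 3 * t * r = t * r + t * r + t * r := by ring
      omega) κ b (by omega)
    have e4 := ee_sup β (LinearMap.ker κ) (LinearMap.ker (κ + b))
    have e5 := hT _ hCtop
    rw [ee_top] at e5
    have : 3 * t * r = t * r + t * r + t * r := by ring
    omega
  · intro h1
    have hSκ : SS β t (LinearMap.ker κ) = LinearMap.ker κ :=
      le_antisymm (hS _).2.1 (le_SS hC.1 le_rfl)
    have hsup : SS β t (LinearMap.ker κ) ⊔ SS β t (LinearMap.ker b) = ⊤ := by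
      rw [hSκ]
      by_contra hne
      have := hC.2.2 _ (hsupA _ _ hC.1 (hS (LinearMap.ker b)).1) le_sup_left hne
      exact h1 (this ▸ le_sup_right)
    have h2 := hR V K U β t hL (le_of_eq ht.symm) κ b hsup
    rw [hSκ, add_comm κ b] at h2
    exact h2

end Pool.Agent.Y467.QB
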